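import Mathlib

/-!
# No good starting value for `P(x) = x - c`, `c ≥ 2`
-/

open Polynomial

namespace Pool.Agent.Results.MP_e68b86_nt.NoGoodStart

/-- The recursion with shifted index: `seq P s k` is `S_s(k + 1)`, so `seq P s 0 = S_s(1) = s`
and `S_s(n) = |S_s(n-1) - gcd(S_s(n-1), P(n))|` for `n = k + 2 ≥ 2`. -/
def seq (P : ℤ[X]) (s : ℕ) : ℕ → ℤ
  | 0 => s
  | k + 1 => |seq P s k - (Int.gcd (seq P s k) (P.eval ((k : ℤ) + 2)) : ℤ)|

/-- `S P s n` is `S_s(n)` for `n ≥ 1`. -/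
def S (P : ℤ[X]) (s n : ℕ) : ℤ := seq P s (n - 1)

/-- The integer `z` is a positive rational prime. -/
def IsPosPrime (z : ℤ) : Prop := ∃ p : ℕ, p.Prime ∧ z = p

/-- `s` is good for `P = ∏ Q_j`: `S_s` vanishes infinitely often, and whenever `n ≥ 2` and
`S_s(n) = 0` all the numbers `Q_j(n + 1)` are primes. -/
def Good {m : ℕ} (Q : Fin m → ℤ[X]) (s : ℕ) : Prop :=
  {n : ℕ | 1 ≤ n ∧ S (∏ j, Q j) s n = 0}.Infinite ∧
    ∀ n : ℕ, 2 ≤ n → S (∏ j, Q j) s n = 0 → ∀ j, IsPosPrime ((Q j).eval ((n : ℤ) + 1))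

lemma seq_nonneg (P : ℤ[X]) (s k : ℕ) : 0 ≤ seq P s k := by
  cases k with
  | zero => simp [seq]
  | succ k => rw [seq]; exact abs_nonneg _

/-- For every `c ≥ 2` the single irreducible polynomial `Q_1 = X - c` (a non-constant
polynomial taking prime values at infinitely many positive integers) has no good starting
value at all. -/
theorem result (c : ℕ) (hc : 2 ≤ c) :
    ∃ Q : Fin 1 → ℤ[X], Q 0 = X - C (c : ℤ) ∧ (∀ j, Irreducible (Q j)) ∧
      (∀ j, 0 < (Q j).natDegree) ∧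
      {k : ℕ | 0 < k ∧ ∀ j, IsPosPrime ((Q j).eval (k : ℤ))}.Infinite ∧
      {s : ℕ | 0 < s ∧ Good Q s} = ∅ := by
  refine ⟨fun _ => X - C (c : ℤ), rfl, fun _ => (prime_X_sub_C _).irreducible, ?_, ?_, ?_⟩
  · intro _
    rw [natDegree_X_sub_C]
    exact one_pos
  · rw [Set.infinite_iff_exists_gt]
    intro B
    obtain ⟨p, hp1, hp2⟩ := Nat.exists_infinite_primes (B + 1)
    refine ⟨p + c, ⟨by omega, fun _ => ⟨p, hp2, ?_⟩⟩, by omega⟩
    simp
  · rw [Set.eq_empty_iff_forall_notMem]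
    rintro s ⟨_, _, hgood⟩
    have hz : S (∏ j : Fin 1, (fun _ => X - C (c : ℤ) : Fin 1 → ℤ[X]) j) s c = 0 := by
      obtain ⟨k, rfl⟩ : ∃ k, c = k + 2 := ⟨c - 2, by omega⟩
      unfold S
      rw [show k + 2 - 1 = k + 1 by omega, seq]
      have h0 : (∏ j : Fin 1, (fun _ => X - C (((k + 2 : ℕ) : ℤ)) : Fin 1 → ℤ[X]) j).eval
          ((k : ℤ) + 2) = 0 := by
        simp
      rw [h0, Int.gcd_zero_right, Int.natCast_natAbs, abs_of_nonneg (seq_nonneg _ _ _)]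
      simp
    obtain ⟨p, hp, h1⟩ := hgood c hc hz 0
    have : ((X - C (c : ℤ) : ℤ[X])).eval ((c : ℤ) + 1) = 1 := by simp
    rw [this] at h1
    have : p = 1 := by exact_mod_cast h1.symm
    exact hp.one_lt.ne' this

end Pool.Agent.Results.MP_e68b86_nt.NoGoodStart
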